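import Pool.Agent.X227.UP.NCGen

/-!
# The noncommutative standard conjecture D for all powers: only finitely many factors matter

Let `W` be the cohomology of the complex manifolds of smooth projective varieties over `ℂ` with
coefficients in `ℂ`, with its rational Hodge structures (`HodgeData`; any Weil cohomology theory with
algebraically closed coefficients and such structures is allowed).

A direct summand `𝒜` of the noncommutative motive of a variety `Y`, with rational coefficients, is
given by an idempotent `e` of `K_0(Y × Y)_ℚ`, for example by the projection functor onto an admissible
subcategory of `D_perf(Y)`. By the Chern character multiplied by the square root of the Todd class it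
gives the class of a cycle of mixed codimension whose operator on the cohomology is idempotent
(`Projector`). For the product `P × Y`, `P` the product of the `X i`, `i` in the list `L`
(`prodList X Y L`), `timesOp X e L` is the operator of the correspondence `1 × e`, and `NCD` is the
noncommutative standard conjecture D for `perf(P) ⊗ 𝒜`: numerically trivial classes in
`K_0(perf(P) ⊗ 𝒜)_ℚ` are homologically trivial, that is: a class of a cycle of mixed codimension with
rational coefficients on `P × Y` which is fixed by `1 × e` and orthogonal to all such classes is zero.

Let `X i` be any family of odd-dimensional varieties, which may be infinite, such that homological and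
numerical equivalence coincide on `X i`, the transcendental cohomology `T i` (the orthogonal
complement of all algebraic classes) is concentrated in the middle degree and not zero, the
Mumford-Tate group acts irreducibly on the Lie algebra `sp(T i)` of the operators on `T i` which are
skew for the intersection form, and these adjoint representations are pairwise not isomorphic
(`SpFamily`; examples: general complete intersections of odd dimension, general curves). Let `Z` be ANY
variety.

The theorem: there is ONE finite set `B` of indices such that for ALL `n` and ALL direct summands `𝒜`
of the noncommutative motive of `Z^(n+1)` and all products `P` of powers of the `X i`: the conjecture D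
holds for `perf(P) ⊗ 𝒜` if and only if it holds for `perf(P') ⊗ 𝒜` for the subproducts `P'` of `P` with
`i ∈ B` such that for some degree `m` of the right parity the product of the numbers (exponent of
`X i`) + 1 and the sum of the `dim T i`, over the `i` which occur, are at most the Betti number
`b_m(Z^(n+1))` (`SmallDim`). So for the noncommutative motives generated by `Z` and all the infinitely
many `X i` the conjecture D is a question about `Z` and the `X i` with `i ∈ B`.

The set `B` is bounded: `∑_{i ∈ B} dim sp(T i) ≤ b ^ 2` where `b` is the dimension of any sum of
cohomology groups `H^m(Z)`, `m ∈ S`, which generates the cohomology algebra of `Z` (`GenBound`); in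
particular `b = dim H(Z)` is possible for all `Z`. No `i ∈ B` is separated from `Z` by Hodge types
(`TypeSep`).

The idea of the proof: if the factor `X i` matters for some power of `Z` then `sp(T i)` acts by
derivations of `H(Z^(n+1))` which can be chosen to commute with all endomorphisms of `Z^(n+1)`, in
particular with the permutations of the factors; so they are determined by their restriction to the
generators of the cohomology of one factor `Z`, and these restrictions are linearly independent for
the different `i`.
-/

open CategoryTheory AlgebraicGeometry

universe u

namespace Pool.Agent.Results.MP_28af06_ag.AllPowersTimes

open Pool.Agent.H914 Pool.Agent.H914.VarClass Pool.Agent.H914.VarClass.Obj Pool.Agent.Y132.AH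
  Pool.Agent.X227.NP Pool.Agent.X227.UP

variable {k : Type u} [Field k] {𝒱 : VarClass k} {ops : CycleOps 𝒱}

theorem result (W : WeilCohomology.{u, 0} ops) [IsAlgClosed W.K] (Ψ : HodgeData W)
    {ι : Type} [DecidableEq ι] (X : ι → 𝒱.Obj) (hX : SpFamily Ψ X) (Z : 𝒱.Obj) :
    ∃ B : Finset ι, GenBound W X Z B ∧ (∀ i ∈ B, ¬TypeSep Ψ (X i) Z) ∧
      ∀ (n : ℕ) (e : W.H ((powN Z n).prod (powN Z n))), Projector (powN Z n) e →
        ∀ L : List ι, NCD W (prodList X (powN Z n) L) (timesOp X e L) ↔
          ∀ L' : List ι, L'.Sublist L → SmallDim W X (powN Z n) B L' →
            NCD W (prodList X (powN Z n) L') (timesOp X e L') :=
  ncd_gen Ψ Z hX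

end Pool.Agent.Results.MP_28af06_ag.AllPowersTimes
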