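import Pool.Agent.X264.DN.Cat

/-!
# The noncommutative standard conjecture D and the module of classes

`C` is a `ℚ`-linear rigid symmetric monoidal category whose unit object has only rational scalars as
endomorphisms, with a symmetric monoidal additive functor `R` to finite dimensional super vector
spaces over a field `K`. For the problem `C` is the category of noncommutative Chow motives over `k`
with rational coefficients and `R` is (topological) periodic cyclic homology. For the motive `M` of a
smooth proper dg category `A` the dual `Mᘁ` is the motive of the opposite category, `HomEqNum R M` is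
the equality `V_hom = V_num` for `A`, the ring `E = corrRing R M` is `K_0(A^op ⊗ A)_ℚ` modulo
homological equivalence and the `E`-module `V = classModule R M` is `K_0(A)_ℚ` modulo homological
equivalence.

Theorem. Assume that there are a class in `K_0(A)` and a class in `K_0(A^op)` whose pairing is not
zero. Then
(1) D holds for `A` if and only if the `E`-module `V` is simple, if and only if it is semisimple;
(2) D holds for `A` and for `A^op` if and only if `V` and the corresponding module for `A^op` are
injective modules; more precisely, if `V` is an injective `E`-module then D holds for `A^op`, and if D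
holds for `A` and `A^op` then `V` is an injective `E`-module;
(3) if the ring `E` is self-injective then D holds for `A^op`.

So D for `A`, which is a statement about the `ℚ`-bilinear Euler form, depends only on the module
structure of `K_0(A)_ℚ / hom` over the ring of correspondences.
-/

set_option autoImplicit false

open CategoryTheory Limits MonoidalCategory

namespace Pool.Agent.Results.MP_28af06_ag.ModuleOfClasses

open Pool.Agent.Y112.SR Pool.Agent.Y112.KD Pool.Agent.X264.DN

universe v u w

theorem result {C : Type u} [Category.{v} C] [Preadditive C] [Linear ℚ C] [MonoidalCategory C]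
    [MonoidalPreadditive C] [MonoidalLinear ℚ C] [SymmetricCategory C] [RightRigidCategory C]
    (hU : UnitQ C) {K : Type w} [Field K] (R : SuperRealisation C K) (M : C)
    (h : ∃ (f : 𝟙_ C ⟶ M) (g : M ⟶ 𝟙_ C), f ≫ g ≠ 0) :
    [HomEqNum R M, ClassesSimple R M, ClassesSemisimple R M].TFAE ∧
    ((HomEqNum R M ∧ HomEqNum R Mᘁ) ↔ (ClassesInjective R M ∧ ClassesInjective R Mᘁ)) ∧
    (ClassesInjective R M → HomEqNum R Mᘁ) ∧
    (HomEqNum R M → HomEqNum R Mᘁ → ClassesInjective R M) ∧
    (CorrSelfInjective R M → HomEqNum R Mᘁ) := by
  refine ⟨classes_tfae R hU M h, ⟨fun hD => ⟨injective_of_both R hU M h hD.1 hD.2,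
    injective_of_both R hU Mᘁ (exists_pair_dual h) hD.2 ((homEqNum_bidual R M).mpr hD.1)⟩,
    fun hI => ⟨(homEqNum_bidual R M).mp (dual_of_injective R hU Mᘁ (exists_pair_dual h) hI.2),
      dual_of_injective R hU M h hI.1⟩⟩, dual_of_injective R hU M h,
    injective_of_both R hU M h, dual_of_selfInjective R hU M h⟩

end Pool.Agent.Results.MP_28af06_ag.ModuleOfClasses
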