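import Pool.Agent.X264.DN.Ring

/-!
# The noncommutative standard conjecture D and the ring of correspondences

`C` is a `ℚ`-linear rigid symmetric monoidal category with direct sums whose unit object has only
rational scalars as endomorphisms, with a symmetric monoidal additive functor `R` to finite
dimensional super vector spaces over a field `K`. For the problem `C` is the category of
noncommutative Chow motives over `k` with rational coefficients and `R` is (topological) periodic
cyclic homology. For the motive `M` of a smooth proper dg category `A`, the object `M ⊗ Mᘁ` is the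
motive of `A ⊗ A^op` and the ring `E = corrRing R M` is `K_0(A^op ⊗ A)_ℚ` modulo homological
equivalence.

Theorem.
(1) The ring `E` is semisimple if and only if the realisation of `A` is a semisimple `E`-module, if
and only if each element of `E` has a generalized inverse in `E`.
(2) If D holds for `A^op ⊗ A` then `E` is semisimple. If the conjecture `C^+` holds for `A` then D
holds for `A^op ⊗ A` if and only if `E` is semisimple.
(3) If `E` is semisimple and `K_0(A)` is not numerically trivial then D holds for `A` and `A^op`.
(4) D holds for all `A` if and only if `E` is semisimple for all `A`, if and only if `E` is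
self-injective for all `A`, if and only if the `E`-module `K_0(A)_ℚ` modulo homological equivalence is
semisimple for all `A`, if and only if this `E`-module is injective for all `A`.
-/

set_option autoImplicit false

open CategoryTheory Limits MonoidalCategory

namespace Pool.Agent.Results.MP_28af06_ag.RingOfCorrespondences

open Pool.Agent.Y112.SR Pool.Agent.Y112.KD Pool.Agent.X264.DN

universe v u w

theorem result {C : Type u} [Category.{v} C] [Preadditive C] [Linear ℚ C] [MonoidalCategory C]
    [MonoidalPreadditive C] [MonoidalLinear ℚ C] [SymmetricCategory C] [RightRigidCategory C]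
    [HasBinaryBiproducts C] (hU : UnitQ C) {K : Type w} [Field K] (R : SuperRealisation C K) :
    (∀ M : C, [CorrSemisimple R M, RealisationSemisimple R M, CorrInverses R M].TFAE ∧
      (HomEqNum R (M ⊗ Mᘁ) → CorrSemisimple R M) ∧
      (R.CPlus M → (HomEqNum R (M ⊗ Mᘁ) ↔ CorrSemisimple R M)) ∧
      ((∃ (f : 𝟙_ C ⟶ M) (g : M ⟶ 𝟙_ C), f ≫ g ≠ 0) → CorrSemisimple R M →
        HomEqNum R M ∧ HomEqNum R Mᘁ)) ∧
    [AllHomEqNum R, AllCorrSemisimple R, AllCorrSelfInjective R, AllClassesSemisimple R,
      AllClassesInjective R].TFAE :=
  ⟨fun M => ⟨ring_tfae R M, corr_semisimple_of R hU M, fun hC => ⟨corr_semisimple_of R hU M,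
    fun h => homEqNum_of_inverses R hU M hC (((ring_tfae R M).out 0 2).mp h)⟩,
    classes_of_ring R hU M⟩, all_tfae R hU⟩

end Pool.Agent.Results.MP_28af06_ag.RingOfCorrespondences
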