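import Pool.Agent.X227.NP.Main

/-!
# The noncommutative standard conjecture D for `perf(P) ⊗ 𝒜`, `P` a product of powers of varieties of
# symplectic type

Let `k` be an algebraically closed field of characteristic zero and `W` a Weil cohomology theory on
the smooth projective varieties over `k` with algebraically closed coefficients (for example de Rham
cohomology, with coefficients extended to `ℂ`), with the rational Hodge structures which it has by the
comparison with the cohomology of the complex manifolds (`HodgeData`).

Let `𝒜` be a smooth proper dg category whose noncommutative motive with rational coefficients is a
direct summand of the one of a smooth projective variety `Z`, for instance a component of a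
semi-orthogonal decomposition of the category of perfect complexes on `Z`. It is given by an
idempotent `e` in the ring `K_0(Z × Z)_ℚ`, which is identified with `CH(Z × Z)_ℚ` (all degrees
together) by the Chern character multiplied by the square root of the Todd class. Here only its
cohomology class is used, which is the class of a cycle of mixed codimension on `Z × Z` such that the
operator `selfOp e : y ↦ pr_2_* (e * pr_1^* y)` on `H(Z)` is idempotent (`Projector`); this operator
cuts out `HP(𝒜)`. The noncommutative motive of the dg category `perf(P) ⊗ 𝒜` is `(P × Z, 1 × e)`, and
`timesOp X e L` is the operator of the correspondence `1 × e` on `H(P × Z)`, for the product `P` of the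
`X i`, `i` in the list `L` (`prodList X Z L` is `P × Z`). The classes of `K_0(perf(P) ⊗ 𝒜)_ℚ` are the
classes of the cycles of mixed codimension on `P × Z` (`mixed`) which are fixed by `1 × e`, and such a
class is in the kernel of the Euler pairing of `perf(P) ⊗ 𝒜` if and only if it is orthogonal to all
classes of cycles on `P × Z`. So `NCD` is the noncommutative standard conjecture of type D for
`perf(P) ⊗ 𝒜`; for `e = 1` it is the standard conjecture D for `P × Z`.

Let `X i` be any family of varieties (`SpFamily`), which may be infinite: `X i` is odd-dimensional,
homological and numerical equivalence coincide on `X i`, the transcendental cohomology `T i` (the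
orthogonal complement of all algebraic classes) is in the middle degree, the Mumford-Tate group acts
irreducibly on the Lie algebra of the operators on `T i` which are skew for the intersection form, and
these adjoint representations are pairwise not isomorphic. Examples: very general curves,
hypersurfaces and complete intersections of odd dimension. Let `Z` be ANY variety.

(1) There is a finite set `B` of indices with `∑ dim T i ≤ dim H(Z)`, none of them separated from `Z`
by Hodge types, such that for EVERY direct summand `𝒜` of the noncommutative motive of `Z` and all
products `P` of powers of the `X i`: the noncommutative standard conjecture D holds for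
`perf(P) ⊗ 𝒜` if and only if it holds for `perf(P') ⊗ 𝒜` for the subproducts `P'` of `P` with `i ∈ B`
which are small (`SmallHodge`): for some degree `m` of the right parity the product of the numbers
(exponent of `X i`) + 1 and the sum of the `dim T i`, over the `i` which occur, are at most the Betti
number `b_m(Z)`, and the sum of the numbers `min |p - q|`, over the Hodge types `(p, q)` of the `T i`,
is at most `m` and `2 dim Z - m`. So for given `𝒜` finitely many products decide for infinitely many.

(2) If all `X i` are separated from `Z` by Hodge types (`TypeSep`: the cohomology of `Z` is generated
by pieces of width at most `N`, and `T i` has a Hodge type `(p, q)` with `p - q > N`; `N = 1` if `Z` is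
an abelian variety or a product of curves) then for every direct summand `𝒜` of the noncommutative
motive of any power of `Z`, for instance a tensor power of a direct summand of the one of `Z`, the
noncommutative standard conjecture D for `perf(P) ⊗ 𝒜` is equivalent to the one for `𝒜`, for all
products `P` of powers of the `X i`.

Nothing is supposed about the standard conjectures for `Z`; if the one of Lefschetz type holds for `Z`
then the statements are known for all its summands.

The idea of the proof: let `F` be a numerically trivial class fixed by `1 × e`. Its components in the
tensor factors `T i` are functions with values in `H(Z)`. The contraction of two factors by the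
intersection form is given by algebraic correspondences which commute with `1 × e`, although `e` is
not homogeneous. So by induction the contractions of a minimal nonzero `F` vanish, that is the
functions are traceless; and then the traceless parts of the tensor powers of the `T i`, on which the
Mumford-Tate group acts through a large symplectic group, occur in a twist of `H(Z)`, which gives the
bounds. Finally the coefficients are descended to the rational numbers.
-/

open CategoryTheory AlgebraicGeometry

universe u

namespace Pool.Agent.Results.MP_28af06_ag.TimesSymplecticTypeHodge

open Pool.Agent.H914 Pool.Agent.H914.VarClass Pool.Agent.H914.VarClass.Obj Pool.Agent.Y132.AH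
  Pool.Agent.X227.NP

variable {k : Type u} [Field k] {𝒱 : VarClass k} {ops : CycleOps 𝒱}

theorem result (W : WeilCohomology.{u, 0} ops) [IsAlgClosed W.K] (Ψ : HodgeData W)
    {ι : Type} [DecidableEq ι] (X : ι → 𝒱.Obj) (hX : SpFamily Ψ X) (Z : 𝒱.Obj) :
    (∃ B : Finset ι, ∑ i ∈ B, trDim W (X i) ≤ totDim W Z ∧ (∀ i ∈ B, ¬TypeSep Ψ (X i) Z) ∧
      ∀ e : W.H (Z.prod Z), Projector Z e → ∀ L : List ι,
        (NCD W (prodList X Z L) (timesOp X e L) ↔
          ∀ L' : List ι, L'.Sublist L → SmallHodge Ψ X Z B L' →
            NCD W (prodList X Z L') (timesOp X e L'))) ∧
    ((∀ i, TypeSep Ψ (X i) Z) → ∀ (n : ℕ) (e : W.H ((powN Z n).prod (powN Z n))),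
      Projector (powN Z n) e → ∀ L : List ι,
        (NCD W (prodList X (powN Z n) L) (timesOp X e L) ↔ NCD W (powN Z n) (selfOp e))) :=
  ⟨d_general Ψ Z hX, fun h n e he L => d_separated Ψ Z hX h n e he L⟩

end Pool.Agent.Results.MP_28af06_ag.TimesSymplecticTypeHodge
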